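import Pool.Agent.Run7.h918.TP.TwoClass

/-!
# The pair `(k, m) = (3, 4)`: quadruples in two classes

The conjectured density `5/9` for `K_4^3`-free 3-graphs with a partition of the vertices
into boundedly many almost independent classes, under conditions on the quadruples that meet exactly
two classes. The proof is by helper122 (`MP_f1799f_co/TwoClassQuadruples`); here the result is put in
the form of this problem: the Turán density of `K_4^3` in the class is `5/9`.
-/

set_option autoImplicit false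
open Finset Filter Topology
open scoped Classical

namespace Pool.Agent.Results.MP_a4d830_co.TwoClassQuadruples

open Pool.Agent.Results.MP_f1799f_co.FonDerFlaass (IsOriented NoInducedC4 fdf construction K43Free)
open Pool.Agent.Run7.h918.TP.TwoClass (innerEdges spans sets22 sets31 Orients
  fourCycles)

/-- `H` is a `K_m^k`-free `k`-graph on `Fin n` -/
def KFree (k m : ℕ) {n : ℕ} (H : Finset (Finset (Fin n))) : Prop :=
  (∀ e ∈ H, e.card = k) ∧ ∀ S : Finset (Fin n), S.card = m → ¬ (S.powersetCard k ⊆ H)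

/-- the 3-graphs with a partition into `r` independent classes such that every 4-set with two
vertices in each of two classes spans at least one edge, and either (i) each of these 4-sets spans
at least two edges, or (ii) no 4-set with three vertices in one class and one vertex in another
class spans exactly one edge -/
def TwoClass (r : ℕ) {n : ℕ} (H : Finset (Finset (Fin n))) : Prop :=
  ∃ c : Fin n → Fin r, innerEdges H c = ∅ ∧ sets22 H c 0 = ∅ ∧
    (sets22 H c 1 = ∅ ∨ sets31 H c 1 = ∅)

theorem k43_iff {n : ℕ} {H : Finset (Finset (Fin n))} :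
    K43Free H ↔ ∀ S : Finset (Fin n), S.card = 4 → ¬ (S.powersetCard 3 ⊆ H) := by
  unfold K43Free
  refine forall_congr' fun S => forall_congr' fun _ => ?_
  rw [not_subset]
  constructor
  · rintro ⟨s, h1, h2, h3⟩
    exact ⟨s, mem_powersetCard.2 ⟨h1, h2⟩, h3⟩
  · rintro ⟨s, h1, h3⟩
    exact ⟨s, (mem_powersetCard.1 h1).1, (mem_powersetCard.1 h1).2, h3⟩

/-- **The pair `(3, 4)`: the density `5/9` from quadruples in two classes.**
(1) For all `r` and `η > 0` there is a `δ > 0` such that, for large `n`, a `K_4^3`-free 3-graph `H`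
with a partition of the vertices into `r` classes has at most `(5/9 + η) C(n,3)` edges if
at most `δ n^3` edges lie inside classes, at most `δ n^4` of the 4-sets with two vertices in each of
two classes span no edge, and (i) at most `δ n^4` of them span exactly one edge or (ii) at most
`δ n^4` of the 4-sets with three vertices in one class and one vertex in another class span exactly
one edge; moreover all but `η n^3` edges of `H` belong to the Fon-der-Flaass construction from an
orientation of the complete `r`-partite graph with at most `η n^4` induced oriented 4-cycles.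
(2) For every `r ≥ 3` the largest number of edges of a `K_4^3`-free 3-graph on `n` vertices in the
class `TwoClass r`, divided by `C(n,3)`, tends to `5/9`. -/
theorem result :
    (∀ (r : ℕ) (η : ℝ), 0 < η → ∃ δ : ℝ, 0 < δ ∧ ∃ N : ℕ, ∀ n : ℕ, N ≤ n →
      ∀ (H : Finset (Finset (Fin n))) (c : Fin n → Fin r), KFree 3 4 H →
        ((innerEdges H c).card : ℝ) ≤ δ * (n : ℝ) ^ 3 →
        ((sets22 H c 0).card : ℝ) ≤ δ * (n : ℝ) ^ 4 →
        (((sets22 H c 1).card : ℝ) ≤ δ * (n : ℝ) ^ 4 ∨
          ((sets31 H c 1).card : ℝ) ≤ δ * (n : ℝ) ^ 4) →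
        (H.card : ℝ) ≤ (5 / 9 + η) * ((n.choose 3 : ℕ) : ℝ) ∧
        ∃ R : Fin n → Fin n → Prop, Orients c R ∧
          ((H \ construction R).card : ℝ) ≤ η * (n : ℝ) ^ 3 ∧
          ((fourCycles R).card : ℝ) ≤ η * (n : ℝ) ^ 4) ∧
    (∀ r : ℕ, 3 ≤ r → Tendsto (fun n : ℕ =>
      ((sSup {k : ℕ | ∃ H : Finset (Finset (Fin n)), KFree 3 4 H ∧ TwoClass r H ∧ H.card = k} : ℕ) :
        ℝ) / ((n.choose 3 : ℕ) : ℝ)) atTop (𝓝 (5 / 9))) := by
  obtain ⟨h1, h2, h3⟩ := Pool.Agent.Run7.h918.TP.TwoClass.result
  refine ⟨fun r η hη => ?_, fun r hr => ?_⟩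
  · obtain ⟨δ, hδ, N, h⟩ := h1 r η hη
    exact ⟨δ, hδ, N, fun n hn H c hK hI h4 h31 =>
      h n hn H c hK.1 (k43_iff.2 hK.2) hI h4 h31⟩
  · rw [Metric.tendsto_atTop]
    intro ε hε
    obtain ⟨δ, hδ, N1, hup⟩ := h1 r (ε / 2) (half_pos hε)
    obtain ⟨N2, hlow⟩ := h3 (ε / 2) (half_pos hε)
    refine ⟨max (max N1 N2) 3, fun n hn => ?_⟩
    have hn1 : N1 ≤ n := (le_max_left _ _).trans ((le_max_left _ _).trans hn)
    have hn2 : N2 ≤ n := (le_max_right _ _).trans ((le_max_left _ _).trans hn)
    have hn3 : 3 ≤ n := (le_max_right _ _).trans hn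
    have hc : (0 : ℝ) < ((n.choose 3 : ℕ) : ℝ) := by exact_mod_cast Nat.choose_pos hn3
    have hn0 : (0 : ℝ) ≤ (n : ℝ) := Nat.cast_nonneg n
    set A : Set ℕ := {k : ℕ | ∃ H : Finset (Finset (Fin n)), KFree 3 4 H ∧ TwoClass r H ∧
      H.card = k} with hA
    have hle : ∀ k ∈ A, (k : ℝ) ≤ (5 / 9 + ε / 2) * ((n.choose 3 : ℕ) : ℝ) := by
      rintro k ⟨H, hK, ⟨c, a1, a2, a3⟩, rfl⟩
      refine (hup n hn1 H c hK.1 (k43_iff.2 hK.2) ?_ ?_ ?_).1
      · rw [a1, card_empty]
        have : 0 ≤ δ * (n : ℝ) ^ 3 := by positivity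
        simpa using this
      · rw [a2, card_empty]
        have : 0 ≤ δ * (n : ℝ) ^ 4 := by positivity
        simpa using this
      · have : 0 ≤ δ * (n : ℝ) ^ 4 := by positivity
        rcases a3 with a3 | a3
        · left
          rw [a3, card_empty]
          simpa using this
        · right
          rw [a3, card_empty]
          simpa using this
    -- the construction, with `r ≥ 3` classes
    obtain ⟨c, R, b1, b2, b3⟩ := hlow n hn2
    let ι : Fin 3 → Fin r := Fin.castLE hr
    have hι : Function.Injective ι := Fin.castLE_injective hr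
    have hO : Orients (fun x => ι (c x)) R := by
      refine ⟨b1.1, fun x y => ?_⟩
      rw [b1.2 x y]
      exact (hι.ne_iff).symm
    obtain ⟨c1, c2, c3, c4, c5, c6⟩ := h2 n r (fun x => ι (c x)) R hO b2
    have hmem : (construction R).card ∈ A :=
      ⟨construction R, ⟨c1, k43_iff.1 c2⟩, ⟨fun x => ι (c x), c3, c4, Or.inl c5⟩, rfl⟩
    have hbdd : BddAbove A := by
      refine ⟨⌈(5 / 9 + ε / 2) * ((n.choose 3 : ℕ) : ℝ)⌉₊, fun k hk => ?_⟩
      exact_mod_cast (hle k hk).trans (Nat.le_ceil _)
    have hs1 : (sSup A : ℕ) ∈ A := Nat.sSup_mem ⟨_, hmem⟩ hbdd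
    have hs2 : (construction R).card ≤ sSup A := le_csSup hbdd hmem
    have hs3 := hle _ hs1
    have hs4 : (5 / 9 - ε / 2) * ((n.choose 3 : ℕ) : ℝ) ≤ ((sSup A : ℕ) : ℝ) :=
      b3.trans (by exact_mod_cast hs2)
    rw [Real.dist_eq, abs_lt]
    constructor
    · have : 5 / 9 - ε / 2 ≤ ((sSup A : ℕ) : ℝ) / ((n.choose 3 : ℕ) : ℝ) := by
        rw [le_div_iff₀ hc]
        exact hs4
      linarith
    · have : ((sSup A : ℕ) : ℝ) / ((n.choose 3 : ℕ) : ℝ) ≤ 5 / 9 + ε / 2 := by
        rw [div_le_iff₀ hc]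
        exact hs3
      linarith

end Pool.Agent.Results.MP_a4d830_co.TwoClassQuadruples
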